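import Pool.Agent.N237.QF.Row
import Pool.Agent.Helper188.NCM.Cuntz
import Pool.Agent.H398R3.NCM.PD

/-! Quasi-free endomorphisms of C*-algebras generated by row-bounded, Wick ordered families:
transference to exponential sums (helper237). -/

set_option autoImplicit false

open Finset Filter Topology

namespace Pool.Agent.N237.QF

open Pool.Agent.Helper188.NCM

section tr

variable {U : Type} [CStarAlgebra U]

/-- transference: the sums of the orbit of `x` with arbitrary coefficients are bounded by the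
exponential sums of the coefficients -/
def Tr (α : U →⋆ₐ[ℂ] U) (x : U) : Prop := ∃ A : ℝ, 0 ≤ A ∧ ∀ (N : ℕ) (c : ℕ → ℂ) (C : ℝ),
  (∀ β : ℝ, ‖∑ n ∈ range N, c n * ee (β * n)‖ ≤ C) → ‖∑ n ∈ range N, c n • (α^[n]) x‖ ≤ A * C

theorem iter_zero (α : U →⋆ₐ[ℂ] U) (n : ℕ) : (α^[n]) 0 = 0 := by
  simpa using iter_smul α n 0 0

theorem Tr.zero (α : U →⋆ₐ[ℂ] U) : Tr α 0 := by
  refine ⟨0, le_rfl, fun N c C _ => ?_⟩
  simp only [iter_zero, smul_zero, sum_const_zero, norm_zero, zero_mul, le_refl]

theorem Tr.add {α : U →⋆ₐ[ℂ] U} {x y : U} (hx : Tr α x) (hy : Tr α y) : Tr α (x + y) := by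
  obtain ⟨A, hA, h1⟩ := hx
  obtain ⟨B, hB, h2⟩ := hy
  refine ⟨A + B, add_nonneg hA hB, fun N c C h => ?_⟩
  simp only [iter_add, smul_add, sum_add_distrib, add_mul]
  exact (norm_add_le _ _).trans (add_le_add (h1 N c C h) (h2 N c C h))

theorem Tr.smul {α : U →⋆ₐ[ℂ] U} {x : U} (a : ℂ) (hx : Tr α x) : Tr α (a • x) := by
  obtain ⟨A, hA, h1⟩ := hx
  refine ⟨‖a‖ * A, mul_nonneg (norm_nonneg _) hA, fun N c C h => ?_⟩
  have e : ∑ n ∈ range N, c n • (α^[n]) (a • x) = a • ∑ n ∈ range N, c n • (α^[n]) x := by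
    rw [smul_sum]
    refine sum_congr rfl fun n _ => ?_
    rw [iter_smul, smul_comm]
  rw [e, norm_smul, mul_assoc]
  exact mul_le_mul_of_nonneg_left (h1 N c C h) (norm_nonneg _)

theorem Tr.mul_eig {α : U →⋆ₐ[ℂ] U} {x : U} (hx : Tr α x) (g : U) (γ : ℝ)
    (hg : ∀ n : ℕ, (α^[n]) g = ee (γ * n) • g) : Tr α (x * g) := by
  obtain ⟨A, hA, h1⟩ := hx
  refine ⟨A * ‖g‖, mul_nonneg hA (norm_nonneg _), fun N c C h => ?_⟩
  have e : ∑ n ∈ range N, c n • (α^[n]) (x * g)
      = (∑ n ∈ range N, (c n * ee (γ * n)) • (α^[n]) x) * g := by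
    rw [sum_mul]
    refine sum_congr rfl fun n _ => ?_
    rw [iter_mul, hg, mul_smul_comm, smul_smul, smul_mul_assoc]
  rw [e]
  refine (norm_mul_le _ _).trans ?_
  rw [mul_assoc A, mul_comm ‖g‖ C, ← mul_assoc]
  refine mul_le_mul_of_nonneg_right (h1 N _ C fun β => ?_) (norm_nonneg _)
  refine le_trans (le_of_eq ?_) (h (γ + β))
  congr 1
  refine sum_congr rfl fun n _ => ?_
  rw [mul_assoc, ← ee_add]
  congr 2
  ring

/-- uniform disjointness from `h` -/
def UD (h : ℕ → ℂ) (α : U →⋆ₐ[ℂ] U) (x : U) : Prop := ∀ ε : ℝ, 0 < ε → ∃ N₀ : ℕ, ∀ N ≥ N₀,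
  ∀ θ : ℝ, ‖∑ n ∈ range N, (h n * ee (θ * n)) • (α^[n]) x‖ ≤ ε * N

/-- `h` is orthogonal to linear phases, uniformly -/
def Orth (h : ℕ → ℂ) : Prop := ∀ ε : ℝ, 0 < ε → ∃ N₀ : ℕ, ∀ N ≥ N₀,
  ∀ θ : ℝ, ‖∑ n ∈ range N, h n * ee (θ * n)‖ ≤ ε * N

theorem Tr.ud {h : ℕ → ℂ} (hh : Orth h) {α : U →⋆ₐ[ℂ] U} {x : U} (hx : Tr α x) : UD h α x := by
  obtain ⟨A, hA, h1⟩ := hx
  intro ε hε
  obtain ⟨N0, h0⟩ := hh (ε / (A + 1)) (by positivity)
  refine ⟨N0, fun N hN θ => ?_⟩
  refine (h1 N _ (ε / (A + 1) * N) fun β => ?_).trans ?_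
  · refine le_trans (le_of_eq ?_) (h0 N hN (θ + β))
    congr 1
    refine sum_congr rfl fun n _ => ?_
    rw [mul_assoc, ← ee_add]
    congr 2
    ring
  · calc A * (ε / (A + 1) * N) = (A / (A + 1)) * (ε * N) := by ring
      _ ≤ 1 * (ε * N) := by
        gcongr
        rw [div_le_one (by positivity)]
        linarith
      _ = _ := one_mul _

theorem ud_closed {h : ℕ → ℂ} (hb : ∀ n, ‖h n‖ ≤ 1) (α : U →⋆ₐ[ℂ] U) {S : Submodule ℂ U}
    (hS : ∀ x ∈ S, UD h α x) : ∀ x ∈ S.topologicalClosure, UD h α x := by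
  intro x hx ε hε
  have hx' : x ∈ closure (S : Set U) := hx
  obtain ⟨y, hy, hxy⟩ := Metric.mem_closure_iff.1 hx' (ε / 2) (by positivity)
  obtain ⟨N1, h1⟩ := hS y hy (ε / 2) (by positivity)
  refine ⟨N1, fun N hN θ => ?_⟩
  have g1 := h1 N hN θ
  have g2 : ‖∑ n ∈ range N, (h n * ee (θ * n)) • (α^[n]) (x - y)‖ ≤ N * ‖x - y‖ := by
    refine (norm_sum_le _ _).trans ?_
    calc ∑ n ∈ range N, ‖(h n * ee (θ * n)) • (α^[n]) (x - y)‖ ≤ ∑ n ∈ range N, ‖x - y‖ := by
          refine sum_le_sum fun n _ => ?_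
          rw [norm_smul, norm_mul, norm_ee, mul_one]
          calc ‖h n‖ * ‖(α^[n]) (x - y)‖ ≤ 1 * ‖x - y‖ := by
                gcongr
                · exact hb n
                · exact norm_iter_le α n (x - y)
            _ = ‖x - y‖ := one_mul _
      _ = N * ‖x - y‖ := by simp
  have e : ∑ n ∈ range N, (h n * ee (θ * n)) • (α^[n]) x
      = ∑ n ∈ range N, (h n * ee (θ * n)) • (α^[n]) (x - y)
        + ∑ n ∈ range N, (h n * ee (θ * n)) • (α^[n]) y := by
    rw [← sum_add_distrib]
    refine sum_congr rfl fun n _ => ?_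
    rw [iter_sub, smul_sub]; abel
  rw [e]
  refine (norm_add_le _ _).trans ?_
  rw [dist_eq_norm] at hxy
  have : (N : ℝ) * ‖x - y‖ ≤ N * (ε / 2) := by gcongr
  linarith

end tr

section words

variable {U H : Type} [CStarAlgebra U] [NormedAddCommGroup H] [InnerProductSpace ℂ H]

/-- **Transference for words.** -/
theorem Tr.word (s : H →ₗ[ℂ] U) {K : ℝ} (hK : 0 < K) (hrow : RowBounded s K)
    (α : U →⋆ₐ[ℂ] U) (V : H → H) (hV : ∀ η ξ, (inner ℂ (V η) (V ξ) : ℂ) = inner ℂ η ξ)
    (hα : ∀ ξ, α (s ξ) = s (V ξ)) (p : List H × List H) : Tr α (cword s p) := by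
  set g : ℤ → ℂ := fun k =>
    (p.2.map fun η => star (gi V η k)).prod * (p.1.map fun ξ => gi V ξ k).prod with hg
  have key : ∀ (N : ℕ) (c : ℕ → ℂ), ∃ S : ℝ, 0 ≤ S ∧
      ‖∑ n ∈ range N, c n • (α^[n]) (cword s p)‖ ^ 2 ≤ K ^ (p.1.length + p.2.length) * S ∧
      (∑ n ∈ range N, ∑ m ∈ range N, c n * star (c m) * g ((n : ℤ) - m)) = (S : ℂ) := by
    intro N c
    obtain ⟨S, hS, h1, h2⟩ := hs_fin s hK hrow p.1 p.2 N (fun i => V^[(i : ℕ)]) (fun i => c i)
    refine ⟨S, hS, ?_, ?_⟩
    · rw [Finset.sum_range]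
      refine le_trans (le_of_eq ?_) h1
      congr 2
      refine sum_congr rfl fun n _ => ?_
      rw [iter_word α s V hα]
    · rw [← h2, Finset.sum_range]
      refine sum_congr rfl fun n _ => ?_
      rw [Finset.sum_range]
      refine sum_congr rfl fun m _ => ?_
      congr 1
      show (p.2.map fun η => star (gi V η (((n : ℕ) : ℤ) - ((m : ℕ) : ℤ)))).prod *
        (p.1.map fun ξ => gi V ξ (((n : ℕ) : ℤ) - ((m : ℕ) : ℤ))).prod = _
      congr 2
      · refine List.map_congr_left fun ξ _ => ?_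
        rw [← gi_eq V hV ξ m n, ← inner_conj_symm (V^[(n : ℕ)] ξ) (V^[(m : ℕ)] ξ)]
        rfl
      · exact List.map_congr_left fun ξ _ => (gi_eq V hV ξ m n).symm
  have hpsd : ∀ (M : ℕ) (x : ℕ → ℂ),
      0 ≤ (∑ n ∈ range M, ∑ m ∈ range M, x n * star (x m) * g ((n : ℤ) - m)).re ∧
      (∑ n ∈ range M, ∑ m ∈ range M, x n * star (x m) * g ((n : ℤ) - m)).im = 0 := by
    intro M x
    obtain ⟨S, hS, -, h2⟩ := key M x
    rw [h2]
    exact ⟨by simpa using hS, by simp⟩
  have hG : 0 ≤ (g 0).re := by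
    have := (hpsd 1 (fun _ => 1)).1
    simpa using this
  have hKp : 0 ≤ K ^ (p.1.length + p.2.length) := pow_nonneg hK.le _
  refine ⟨Real.sqrt (K ^ (p.1.length + p.2.length) * (g 0).re), Real.sqrt_nonneg _,
    fun N c C h => ?_⟩
  have hC : 0 ≤ C := (norm_nonneg _).trans (h 0)
  obtain ⟨S, hS, h1, h2⟩ := key N c
  have h3 := Pool.Agent.H398R3.NCM.taskPD g hpsd N c C hC h
  rw [h2, Complex.ofReal_re] at h3
  refine le_of_sq_le_sq ?_ (mul_nonneg (Real.sqrt_nonneg _) hC)
  rw [mul_pow, Real.sq_sqrt (mul_nonneg hKp hG)]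
  calc _ ≤ K ^ (p.1.length + p.2.length) * S := h1
    _ ≤ K ^ (p.1.length + p.2.length) * (C ^ 2 * (g 0).re) := mul_le_mul_of_nonneg_left h3 hKp
    _ = _ := by ring

theorem mul_mem_cl {A B : Set U} {W : Submodule ℂ U}
    (h : ∀ x ∈ A, ∀ y ∈ B, x * y ∈ W.topologicalClosure) :
    ∀ x ∈ (Submodule.span ℂ A).topologicalClosure, ∀ y ∈ (Submodule.span ℂ B).topologicalClosure,
      x * y ∈ W.topologicalClosure := by
  have h1 : ∀ x ∈ A, ∀ y ∈ (Submodule.span ℂ B).topologicalClosure, x * y ∈ W.topologicalClosure := by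
    intro x hx
    have hle : (Submodule.span ℂ B).topologicalClosure ≤
        W.topologicalClosure.comap (LinearMap.mulLeft ℂ x) := by
      refine Submodule.topologicalClosure_minimal _ (Submodule.span_le.2 fun y hy => h x hx y hy) ?_
      exact W.isClosed_topologicalClosure.preimage (continuous_const_mul x)
    exact fun y hy => hle hy
  intro x hx y hy
  have hle : (Submodule.span ℂ A).topologicalClosure ≤
      W.topologicalClosure.comap (LinearMap.mulRight ℂ y) := by
    refine Submodule.topologicalClosure_minimal _ (Submodule.span_le.2 fun x hx => h1 x hx y hy) ?_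
    exact W.isClosed_topologicalClosure.preimage (continuous_mul_const y)
  exact hle hx

/-- products `s(η)* s(ξ)` are limits of combinations of `1` and products `s(ζ) s(ζ')*` -/
def WickOrdered (s : H →ₗ[ℂ] U) : Prop := ∀ η ξ : H, star (s η) * s ξ ∈
  (Submodule.span ℂ ({1} ∪ {x : U | ∃ a b : H, x = s a * star (s b)})).topologicalClosure

/-- words of bounded degrees -/
def wset (s : H →ₗ[ℂ] U) (a b : ℕ) : Set U :=
  {x | ∃ p : List H × List H, p.1.length ≤ a ∧ p.2.length ≤ b ∧ x = cword s p}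

theorem wset_mono (s : H →ₗ[ℂ] U) {a b a' b' : ℕ} (ha : a ≤ a') (hb : b ≤ b') :
    wset s a b ⊆ wset s a' b' := by
  rintro x ⟨p, h1, h2, rfl⟩
  exact ⟨p, h1.trans ha, h2.trans hb, rfl⟩

theorem cl_mono {A B : Set U} (h : A ⊆ B) :
    (Submodule.span ℂ A).topologicalClosure ≤ (Submodule.span ℂ B).topologicalClosure :=
  Submodule.topologicalClosure_mono (Submodule.span_mono h)

theorem mem_cl {A : Set U} {x : U} (h : x ∈ A) : x ∈ (Submodule.span ℂ A).topologicalClosure :=
  Submodule.le_topologicalClosure _ (Submodule.subset_span h)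

theorem map_cl {A : Set U} {W : Submodule ℂ U} (f : U →ₗ[ℂ] U) (hf : Continuous f)
    (h : ∀ x ∈ A, f x ∈ W.topologicalClosure) :
    ∀ x ∈ (Submodule.span ℂ A).topologicalClosure, f x ∈ W.topologicalClosure := by
  have hle : (Submodule.span ℂ A).topologicalClosure ≤ W.topologicalClosure.comap f := by
    refine Submodule.topologicalClosure_minimal _ (Submodule.span_le.2 fun y hy => h y hy) ?_
    exact W.isClosed_topologicalClosure.preimage hf
  exact fun x hx => hle hx

/-- **Normal ordering.** -/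
theorem normal_order (s : H →ₗ[ℂ] U) (hw : WickOrdered s) (n : ℕ) : ∀ q r : List H,
    q.length + r.length ≤ n → star ((q.map s).prod) * (r.map s).prod ∈
      (Submodule.span ℂ (wset s r.length q.length)).topologicalClosure := by
  induction n using Nat.strong_induction_on with
  | _ n ih =>
    intro q r hn
    rcases q with _ | ⟨η, q⟩
    · exact mem_cl ⟨(r, []), le_rfl, le_rfl, by simp [cword]⟩
    rcases r with _ | ⟨ξ, r⟩
    · exact mem_cl ⟨([], η :: q), le_rfl, le_rfl, by simp [cword]⟩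
    simp only [List.length_cons] at hn
    -- the linear map `x ↦ star q * x * r`
    let f : U →ₗ[ℂ] U := (LinearMap.mulRight ℂ (r.map s).prod).comp
      (LinearMap.mulLeft ℂ (star ((q.map s).prod)))
    have hf : Continuous f := (continuous_mul_const _).comp (continuous_const_mul _)
    have e : star (((η :: q).map s).prod) * ((ξ :: r).map s).prod = f (star (s η) * s ξ) := by
      simp only [List.map_cons, List.prod_cons, star_mul, f, LinearMap.comp_apply,
        LinearMap.mulRight_apply, LinearMap.mulLeft_apply, mul_assoc]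
    rw [e]
    refine map_cl f hf ?_ _ (hw η ξ)
    rintro x (hx | ⟨a, b, rfl⟩)
    · rw [Set.mem_singleton_iff] at hx
      subst hx
      have h1 : f 1 = star ((q.map s).prod) * (r.map s).prod := by
        simp only [f, LinearMap.comp_apply, LinearMap.mulRight_apply, LinearMap.mulLeft_apply, mul_one]
      rw [h1]
      exact cl_mono (wset_mono s (by simp) (by simp)) (ih (q.length + r.length) (by omega) q r le_rfl)
    · have h1 : f (s a * star (s b)) = (star ((q.map s).prod) * ([a].map s).prod) *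
          (star (([b].map s).prod) * (r.map s).prod) := by
        simp only [f, LinearMap.comp_apply, LinearMap.mulRight_apply, LinearMap.mulLeft_apply,
          List.map_cons, List.map_nil, List.prod_cons, List.prod_nil, mul_one, mul_assoc]
      rw [h1]
      have h2 := ih (q.length + 1) (by omega) q [a] (by simp)
      have h3 := ih (1 + r.length) (by omega) [b] r (by simp)
      refine mul_mem_cl ?_ _ h2 _ h3
      rintro x ⟨l, hl1, hl2, rfl⟩ y ⟨m, hm1, hm2, rfl⟩
      simp only [List.length_cons, List.length_nil, zero_add] at hl1 hm2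
      let f' : U →ₗ[ℂ] U := (LinearMap.mulRight ℂ (star ((m.2.map s).prod))).comp
        (LinearMap.mulLeft ℂ ((l.1.map s).prod))
      have hf' : Continuous f' := (continuous_mul_const _).comp (continuous_const_mul _)
      have e2 : cword s l * cword s m = f' (star ((l.2.map s).prod) * (m.1.map s).prod) := by
        simp only [cword, f', LinearMap.comp_apply, LinearMap.mulRight_apply,
          LinearMap.mulLeft_apply, mul_assoc]
      rw [e2]
      have h4 := ih (l.2.length + m.1.length) (by omega) l.2 m.1 le_rfl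
      refine map_cl f' hf' ?_ _ h4
      rintro z ⟨u, hu1, hu2, rfl⟩
      refine mem_cl ⟨(l.1 ++ u.1, m.2 ++ u.2), ?_, ?_, ?_⟩
      · simp only [List.length_append, List.length_cons]; omega
      · simp only [List.length_append, List.length_cons]; omega
      · simp only [f', LinearMap.comp_apply, LinearMap.mulRight_apply, LinearMap.mulLeft_apply, cword,
          List.map_append, List.prod_append, star_mul, mul_assoc]

/-- **The main theorem**: the orbits of a dense subspace satisfy the transference inequality. -/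
theorem main (s : H →ₗ[ℂ] U) {K : ℝ} (hK : 0 < K) (hrow : RowBounded s K) (hw : WickOrdered s)
    (G : Subgroup (unitary U)) (hG : ∀ g ∈ G, ∀ ξ, ∃ ζ, (g : U) * s ξ * star (g : U) = s ζ)
    (hgen : (StarAlgebra.adjoin ℂ (Set.range s ∪ {x : U | ∃ g ∈ G, x = (g : U)})).topologicalClosure = ⊤)
    (α : U →⋆ₐ[ℂ] U) (V : H → H) (hV : ∀ η ξ, (inner ℂ (V η) (V ξ) : ℂ) = inner ℂ η ξ)
    (hα : ∀ ξ, α (s ξ) = s (V ξ))
    (hαG : ∀ g ∈ G, ∃ c : ℂ, ‖c‖ = 1 ∧ α (g : U) = c • (g : U)) :
    ∃ S : Submodule ℂ U, S.topologicalClosure = ⊤ ∧ ∀ x ∈ S, Tr α x := by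
  have hG' : ∀ g ∈ G, ∃ σ : H → H, ∀ ξ, (g : U) * s ξ = s (σ ξ) * (g : U) := by
    intro g hg
    choose σ hσ using hG g hg
    refine ⟨σ, fun ξ => ?_⟩
    rw [← hσ, mul_assoc, Unitary.star_mul_self_of_mem g.2, mul_one]
  set R : Set U := {x | ∃ (p : List H × List H) (g : unitary U), g ∈ G ∧ x = cword s p * (g : U)}
    with hR
  refine ⟨Submodule.span ℂ R, ?_, ?_⟩
  · have hmulR : ∀ x ∈ R, ∀ y ∈ R, x * y ∈ (Submodule.span ℂ R).topologicalClosure := by
      rintro x ⟨p, g, hg, rfl⟩ y ⟨q, h, hh, rfl⟩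
      obtain ⟨σ, hσ⟩ := hG' g hg
      let f : U →ₗ[ℂ] U := (LinearMap.mulRight ℂ
          (star (((q.2.map σ).map s).prod) * ((g : U) * (h : U)))).comp
        (LinearMap.mulLeft ℂ ((p.1.map s).prod))
      have hf : Continuous f := (continuous_mul_const _).comp (continuous_const_mul _)
      have e : cword s p * (g : U) * (cword s q * (h : U))
          = f (star ((p.2.map s).prod) * ((q.1.map σ).map s).prod) := by
        have := conj_cword s g σ hσ q
        calc cword s p * (g : U) * (cword s q * (h : U))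
            = cword s p * ((g : U) * cword s q) * (h : U) := by simp only [mul_assoc]
          _ = cword s p * (cword s (q.1.map σ, q.2.map σ) * (g : U)) * (h : U) := by rw [this]
          _ = _ := by
            simp only [cword, f, LinearMap.comp_apply, LinearMap.mulRight_apply,
              LinearMap.mulLeft_apply, mul_assoc]
      rw [e]
      refine map_cl f hf ?_ _ (normal_order s hw _ _ _ le_rfl)
      rintro z ⟨u, -, -, rfl⟩
      refine mem_cl ⟨(p.1 ++ u.1, q.2.map σ ++ u.2), g * h, G.mul_mem hg hh, ?_⟩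
      simp only [f, LinearMap.comp_apply, LinearMap.mulRight_apply, LinearMap.mulLeft_apply, cword,
        List.map_append, List.prod_append, star_mul, mul_assoc]
      rfl
    have hstarR : ∀ x ∈ Submodule.span ℂ R, star x ∈ Submodule.span ℂ R := by
      intro x hx
      induction hx using Submodule.span_induction with
      | mem x hx =>
        obtain ⟨p, g, hg, rfl⟩ := hx
        obtain ⟨σ, hσ⟩ := hG' g⁻¹ (G.inv_mem hg)
        refine Submodule.subset_span ⟨(p.2.map σ, p.1.map σ), g⁻¹, G.inv_mem hg, ?_⟩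
        rw [star_mul, star_cword, ← conj_cword s g⁻¹ σ hσ (p.2, p.1)]
        rfl
      | zero => rw [star_zero]; exact Submodule.zero_mem _
      | add x y _ _ hx hy => rw [star_add]; exact Submodule.add_mem _ hx hy
      | smul c x _ hx => rw [star_smul]; exact Submodule.smul_mem _ _ hx
    let W : StarSubalgebra ℂ U :=
      { carrier := (Submodule.span ℂ R).topologicalClosure
        mul_mem' := fun {a b} ha hb => mul_mem_cl hmulR a ha b hb
        add_mem' := fun ha hb => Submodule.add_mem _ ha hb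
        algebraMap_mem' := by
          intro r
          have : (1 : U) ∈ (Submodule.span ℂ R).topologicalClosure :=
            mem_cl ⟨([], []), 1, G.one_mem, by simp [cword]⟩
          rw [Algebra.algebraMap_eq_smul_one]
          exact Submodule.smul_mem _ _ this
        star_mem' := by
          intro a ha
          exact map_mem_closure (s := (Submodule.span ℂ R : Set U)) continuous_star ha
            (fun x hx => hstarR x hx) }
    have hle : StarAlgebra.adjoin ℂ (Set.range s ∪ {x : U | ∃ g ∈ G, x = (g : U)}) ≤ W := by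
      refine StarAlgebra.adjoin_le ?_
      rintro z (⟨ξ, rfl⟩ | ⟨g, hg, rfl⟩)
      · exact mem_cl ⟨([ξ], []), 1, G.one_mem, by simp [cword]⟩
      · exact mem_cl ⟨([], []), g, hg, by simp [cword]⟩
    rw [eq_top_iff]
    intro x _
    have hx : x ∈ (StarAlgebra.adjoin ℂ (Set.range s ∪ {x : U | ∃ g ∈ G, x = (g : U)})).topologicalClosure := by
      rw [hgen]; trivial
    have hc : IsClosed ((Submodule.span ℂ R).topologicalClosure : Set U) :=
      Submodule.isClosed_topologicalClosure _
    exact closure_minimal (s := ((StarAlgebra.adjoin ℂ (Set.range s ∪ {x : U | ∃ g ∈ G, x = (g : U)}) :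
      StarSubalgebra ℂ U) : Set U)) (fun z hz => hle hz) hc hx
  · intro y hy
    induction hy using Submodule.span_induction with
    | mem y hy =>
      obtain ⟨p, g, hg, rfl⟩ := hy
      obtain ⟨c, hc, hcg⟩ := hαG g hg
      obtain ⟨γ, rfl⟩ := exists_ee hc
      refine (Tr.word s hK hrow α V hV hα p).mul_eig _ γ fun n => ?_
      induction n with
      | zero => simp [ee_zero]
      | succ n ih =>
        rw [Function.iterate_succ_apply', ih, map_smul, hcg, smul_smul, ← ee_add]
        congr 2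
        push_cast; ring
    | zero => exact Tr.zero α
    | add x y _ _ hx hy => exact hx.add hy
    | smul c x _ hx => exact hx.smul c

end words

end Pool.Agent.N237.QF
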