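import Pool.Agent.N237.QF.Main

/-! Deformed commutation relations are row-bounded (helper237). -/

set_option autoImplicit false

open Finset Filter Topology

namespace Pool.Agent.N237.QF

attribute [local instance] CStarAlgebra.spectralOrder CStarAlgebra.spectralOrderedRing

section fin

variable {U : Type} [CStarAlgebra U]

theorem cs_norm0 {ι : Type} [Fintype ι] (x y : ι → U) (K : ℝ)
    (h : ‖∑ k, x k * star (x k)‖ ≤ K) :
    ‖∑ k, x k * y k‖ ^ 2 ≤ K * ‖∑ k, star (y k) * y k‖ := by
  have hK : 0 ≤ K := (norm_nonneg _).trans h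
  set L := ‖∑ k, star (y k) * y k‖ with hL
  have hL0 : 0 ≤ L := norm_nonneg _
  rcases hL0.eq_or_lt with h0 | h0
  · have := cs_norm x y (K + 1) (by linarith) (by linarith)
    rw [← hL, ← h0, mul_zero] at this
    rw [← h0, mul_zero]
    exact this
  · refine le_of_forall_pos_le_add fun δ hδ => ?_
    have := cs_norm x y (K + δ / L) (by positivity) (by linarith [div_pos hδ h0])
    rw [← hL, add_mul, div_mul_cancel₀ _ h0.ne'] at this
    exact this

/-- the row norm for deformed commutation relations -/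
theorem fin_row {ι : Type} [Fintype ι] [DecidableEq ι] (x : ι → U) (Q : ι → ι → ℂ) (q : ℝ)
    (hq0 : 0 ≤ q) (hq1 : q < 1) (hQ : ∀ i j, ‖Q i j‖ ≤ q)
    (hrel : ∀ i j, star (x i) * x j = (if i = j then (1 : ℂ) else 0) • (1 : U)
      + Q i j • (x j * star (x i))) :
    ‖∑ i, x i * star (x i)‖ ≤ (1 - q)⁻¹ := by
  set P := ∑ i, x i * star (x i) with hP
  set K := ‖P‖ with hK
  have hK0 : 0 ≤ K := norm_nonneg _
  have hPs : IsSelfAdjoint P := IsSelfAdjoint.of_nonneg (row_nonneg x)
  have hP1 : P ≤ K • (1 : U) := by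
    refine hPs.le_algebraMap_norm_self.trans ?_
    rw [Algebra.algebraMap_eq_smul_one]
  -- the conjugated sums
  have hsum : ∑ i, x i * P * star (x i) ≤ K • P := by
    rw [hP, smul_sum, ← hP]
    refine sum_le_sum fun i _ => ?_
    have := star_right_conjugate_le_conjugate hP1 (x i)
    rwa [mul_smul_comm, mul_one, smul_mul_assoc] at this
  have hsum0 : 0 ≤ ∑ i, x i * P * star (x i) :=
    Finset.sum_nonneg fun i _ => star_right_conjugate_nonneg (row_nonneg x) (x i)
  have hsumn : ‖∑ i, x i * P * star (x i)‖ ≤ K ^ 2 := by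
    refine (CStarAlgebra.norm_le_norm_of_nonneg_of_le hsum0 hsum).trans ?_
    rw [norm_smul, Real.norm_of_nonneg hK0, sq]
  set X : ι × ι → U := fun p => Q p.1 p.2 • (x p.1 * x p.2) with hX
  set Y : ι × ι → U := fun p => star (x p.1) * star (x p.2) with hY
  have hPP : P * P = P + ∑ p, X p * Y p := by
    have e1 : P * P = ∑ i, ∑ j, x i * (star (x i) * x j) * star (x j) := by
      rw [hP, sum_mul]
      refine sum_congr rfl fun i _ => ?_
      rw [mul_sum]
      refine sum_congr rfl fun j _ => ?_
      simp only [mul_assoc]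
    rw [e1, Fintype.sum_prod_type]
    have e2 : ∀ i j, x i * (star (x i) * x j) * star (x j)
        = (if i = j then x i * star (x j) else 0) + X (i, j) * Y (i, j) := by
      intro i j
      rw [hrel, mul_add, add_mul]
      congr 1
      · split_ifs <;> simp
      · simp only [hX, hY, mul_smul_comm, smul_mul_assoc, mul_assoc]
    simp only [e2, sum_add_distrib, sum_ite_eq, mem_univ, if_true]
    rw [hP]
  have hXX : ‖∑ p, X p * star (X p)‖ ≤ q ^ 2 * K ^ 2 := by
    have h1 : ∑ p, X p * star (X p) ≤ q ^ 2 • ∑ i, x i * P * star (x i) := by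
      rw [Fintype.sum_prod_type, smul_sum]
      refine sum_le_sum fun i _ => ?_
      have e : x i * P * star (x i) = ∑ j, (x i * x j) * star (x i * x j) := by
        rw [hP, mul_sum, sum_mul]
        refine sum_congr rfl fun j _ => ?_
        rw [star_mul]; simp only [mul_assoc]
      rw [e, smul_sum]
      refine sum_le_sum fun j _ => ?_
      have e2 : X (i, j) * star (X (i, j)) = (‖Q i j‖ ^ 2) • ((x i * x j) * star (x i * x j)) := by
        simp only [hX]
        rw [star_smul, smul_mul_smul_comm]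
        have : Q i j * star (Q i j) = ((‖Q i j‖ ^ 2 : ℝ) : ℂ) := by
          rw [Complex.star_def, Complex.mul_conj, Complex.normSq_eq_norm_sq]
        rw [this, Complex.coe_smul]
      rw [e2]
      exact smul_le_smul_of_nonneg_right (pow_le_pow_left₀ (norm_nonneg _) (hQ i j) 2)
        (mul_star_self_nonneg _)
    refine (CStarAlgebra.norm_le_norm_of_nonneg_of_le (row_nonneg X) h1).trans ?_
    rw [norm_smul, Real.norm_of_nonneg (sq_nonneg q)]
    exact mul_le_mul_of_nonneg_left hsumn (sq_nonneg q)
  have hYY : ‖∑ p, star (Y p) * Y p‖ ≤ K ^ 2 := by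
    have e : ∑ p, star (Y p) * Y p = ∑ i, x i * P * star (x i) := by
      rw [Fintype.sum_prod_type, sum_comm]
      refine sum_congr rfl fun i _ => ?_
      rw [hP, mul_sum, sum_mul]
      refine sum_congr rfl fun j _ => ?_
      simp only [hY, star_mul, star_star, mul_assoc]
    rw [e]; exact hsumn
  have hD : ‖∑ p, X p * Y p‖ ≤ q * K ^ 2 := by
    have h1 := cs_norm0 X Y (q ^ 2 * K ^ 2) hXX
    have h2 : ‖∑ p, X p * Y p‖ ^ 2 ≤ (q * K ^ 2) ^ 2 := by
      refine h1.trans ?_
      calc q ^ 2 * K ^ 2 * ‖∑ p, star (Y p) * Y p‖ ≤ q ^ 2 * K ^ 2 * K ^ 2 := by gcongr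
        _ = _ := by ring
    exact le_of_sq_le_sq h2 (by positivity)
  have hKK : K ^ 2 ≤ K + q * K ^ 2 := by
    have h1 : ‖P * P‖ = K ^ 2 := by
      have := CStarRing.norm_star_mul_self (x := P)
      rw [hPs.star_eq] at this
      rw [this, ← hK, sq]
    have h2 : ‖P * P‖ ≤ K + q * K ^ 2 := by
      rw [hPP]
      exact (norm_add_le _ _).trans (add_le_add le_rfl hD)
    rwa [h1] at h2
  rcases hK0.eq_or_lt with h0 | h0
  · rw [← h0]; exact inv_nonneg.2 (by linarith)
  · have h1 : K * (1 - q) ≤ 1 := by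
      have : K * (K * (1 - q)) ≤ K * 1 := by nlinarith
      exact le_of_mul_le_mul_left this h0
    rw [← one_div, le_div_iff₀ (by linarith)]
    exact h1

end fin

variable {U H : Type} [CStarAlgebra U] [NormedAddCommGroup H] [InnerProductSpace ℂ H]

/-- the `q`-commutation relations -/
def QRel (s : H →ₗ[ℂ] U) (q : ℝ) : Prop := ∀ η ξ : H,
  star (s η) * s ξ = (inner ℂ η ξ : ℂ) • (1 : U) + q • (s ξ * star (s η))

theorem QRel.row {s : H →ₗ[ℂ] U} {q : ℝ} (hq : |q| < 1) (h : QRel s q) :
    RowBounded s (1 - |q|)⁻¹ := by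
  classical
  intro d e he
  refine fin_row (fun i => s (e i)) (fun _ _ => (q : ℂ)) |q| (abs_nonneg q) hq
    (fun i j => by rw [Complex.norm_real, Real.norm_eq_abs]) fun i j => ?_
  rw [h, orthonormal_iff_ite.1 he i j, Complex.coe_smul]

theorem QRel.wick {s : H →ₗ[ℂ] U} {q : ℝ} (h : QRel s q) : WickOrdered s := by
  intro η ξ
  rw [h]
  refine Submodule.add_mem _ (Submodule.smul_mem _ _ (mem_cl (Or.inl rfl))) ?_
  rw [← Complex.coe_smul]
  exact Submodule.smul_mem _ _ (mem_cl (Or.inr ⟨ξ, η, rfl⟩))

/-- the mixed commutation relations -/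
def MixedRel {I : Type} (e : I → H) (s : H →L[ℂ] U) (Q : I → I → ℂ) : Prop := ∀ i j : I,
  star (s (e i)) * s (e j) = (inner ℂ (e i) (e j) : ℂ) • (1 : U) + Q i j • (s (e j) * star (s (e i)))

theorem MixedRel.wick {I : Type} {e : I → H} (hd : (Submodule.span ℂ (Set.range e)).topologicalClosure = ⊤)
    {s : H →L[ℂ] U} {Q : I → I → ℂ} (h : MixedRel e s Q) : WickOrdered (s : H →ₗ[ℂ] U) := by
  set W := (Submodule.span ℂ ({1} ∪ {x : U | ∃ a b : H, x = s a * star (s b)})).topologicalClosure
    with hW
  have hWc : IsClosed (W : Set U) := Submodule.isClosed_topologicalClosure _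
  have h1 : ∀ i : I, ∀ ξ : H, star (s (e i)) * s ξ ∈ W := by
    intro i
    have hle : (Submodule.span ℂ (Set.range e)).topologicalClosure ≤
        W.comap ((LinearMap.mulLeft ℂ (star (s (e i)))).comp (s : H →ₗ[ℂ] U)) := by
      refine Submodule.topologicalClosure_minimal _ (Submodule.span_le.2 ?_) ?_
      · rintro _ ⟨j, rfl⟩
        show star (s (e i)) * s (e j) ∈ W
        rw [h]
        exact Submodule.add_mem _ (Submodule.smul_mem _ _ (mem_cl (Or.inl rfl)))
          (Submodule.smul_mem _ _ (mem_cl (Or.inr ⟨e j, e i, rfl⟩)))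
      · exact hWc.preimage ((continuous_const_mul (star (s (e i)))).comp s.continuous)
    intro ξ
    have : ξ ∈ (Submodule.span ℂ (Set.range e)).topologicalClosure := by rw [hd]; trivial
    exact hle this
  intro η ξ
  let M : Submodule ℂ H :=
    { carrier := {η | star (s η) * s ξ ∈ W}
      add_mem' := by
        intro a b ha hb
        show star (s (a + b)) * s ξ ∈ W
        rw [map_add, star_add, add_mul]
        exact Submodule.add_mem _ ha hb
      zero_mem' := by
        show star (s 0) * s ξ ∈ W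
        rw [map_zero, star_zero, zero_mul]
        exact Submodule.zero_mem _
      smul_mem' := by
        intro c a ha
        show star (s (c • a)) * s ξ ∈ W
        rw [map_smul, star_smul, smul_mul_assoc]
        exact Submodule.smul_mem _ _ ha }
  have hle : (Submodule.span ℂ (Set.range e)).topologicalClosure ≤ M := by
    refine Submodule.topologicalClosure_minimal _ (Submodule.span_le.2 ?_) ?_
    · rintro _ ⟨j, rfl⟩
      exact h1 j ξ
    · exact hWc.preimage ((continuous_star.comp s.continuous).mul continuous_const)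
  have : η ∈ (Submodule.span ℂ (Set.range e)).topologicalClosure := by rw [hd]; trivial
  exact hle this

theorem MixedRel.row {I : Type} {e : I → H} (he : Orthonormal ℂ e)
    (hd : (Submodule.span ℂ (Set.range e)).topologicalClosure = ⊤)
    {s : H →L[ℂ] U} {Q : I → I → ℂ} {q : ℝ} (hq0 : 0 ≤ q) (hq1 : q < 1) (hQ : ∀ i j, ‖Q i j‖ ≤ q)
    (h : MixedRel e s Q) : RowBounded (s : H →ₗ[ℂ] U) (1 - q)⁻¹ := by
  classical
  have hK0 : 0 < (1 - q)⁻¹ := inv_pos.2 (by linarith)
  intro d v hv
  set b : Fin d → U := fun k => star (s (v k)) with hb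
  have key : ∀ y : Fin d → H, ‖∑ k, s (y k) * b k‖ ^ 2 ≤
      (1 - q)⁻¹ * ‖∑ k, ∑ l, (inner ℂ (y k) (y l) : ℂ) • (star (b k) * b l)‖ := by
    have hcl : IsClosed {y : Fin d → H | ‖∑ k, s (y k) * b k‖ ^ 2 ≤
        (1 - q)⁻¹ * ‖∑ k, ∑ l, (inner ℂ (y k) (y l) : ℂ) • (star (b k) * b l)‖} := by
      refine isClosed_le ?_ ?_
      · fun_prop
      · fun_prop
    have hdense : Dense (Set.pi Set.univ fun _ : Fin d => ((Submodule.span ℂ (Set.range e) : Submodule ℂ H) : Set H)) := by
      refine dense_pi _ fun k _ => ?_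
      rw [dense_iff_closure_eq, ← Submodule.topologicalClosure_coe, hd]
      rfl
    intro y
    have hsub : Set.pi Set.univ (fun _ : Fin d => ((Submodule.span ℂ (Set.range e) : Submodule ℂ H) : Set H)) ⊆
        {y : Fin d → H | ‖∑ k, s (y k) * b k‖ ^ 2 ≤
        (1 - q)⁻¹ * ‖∑ k, ∑ l, (inner ℂ (y k) (y l) : ℂ) • (star (b k) * b l)‖} := by
      intro y hy
      have hy' : ∀ k, ∃ c : I →₀ ℂ, (c.sum fun i a => a • e i) = y k := fun k =>
        Finsupp.mem_span_range_iff_exists_finsupp.1 (hy k (Set.mem_univ k))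
      choose c hc using hy'
      set F : Finset I := univ.biUnion fun k => (c k).support with hF
      have hyF : ∀ k, y k = ∑ i ∈ F, c k i • e i := by
        intro k
        rw [← hc k, Finsupp.sum]
        refine sum_subset (fun i hi => mem_biUnion.2 ⟨k, mem_univ _, hi⟩) fun i _ hi => ?_
        rw [Finsupp.notMem_support_iff.1 hi, zero_smul]
      have hrowF : ‖∑ i : F, s (e i) * star (s (e i))‖ ≤ (1 - q)⁻¹ := by
        refine fin_row (fun i : F => s (e i)) (fun i j => Q i j) q hq0 hq1 (fun i j => hQ i j)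
          fun i j => ?_
        rw [h, orthonormal_iff_ite.1 he i j]
        simp only [Subtype.ext_iff]
      have h1 := cs_norm (fun i : F => s (e i)) (fun i : F => ∑ k, c k i • b k) (1 - q)⁻¹ hK0 hrowF
      have e1 : ∑ k, s (y k) * b k = ∑ i : F, s (e i) * ∑ k, c k i • b k := by
        simp only [mul_sum]
        rw [sum_comm]
        refine sum_congr rfl fun k _ => ?_
        rw [hyF k, map_sum, sum_mul, ← sum_coe_sort F]
        refine sum_congr rfl fun i _ => ?_
        rw [map_smul, smul_mul_assoc, mul_smul_comm]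
      have e2 : ∑ k, ∑ l, (inner ℂ (y k) (y l) : ℂ) • (star (b k) * b l)
          = ∑ i : F, star (∑ k, c k i • b k) * ∑ k, c k i • b k := by
        have e3 : ∀ i : F, star (∑ k, c k i • b k) * ∑ k, c k i • b k
            = ∑ k, ∑ l, (star (c k i) * c l i) • (star (b k) * b l) := by
          intro i
          rw [star_sum, sum_mul]
          refine sum_congr rfl fun k _ => ?_
          rw [mul_sum]
          refine sum_congr rfl fun l _ => ?_
          rw [star_smul, smul_mul_smul_comm]
        simp only [e3]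
        have e4 : ∑ i : F, ∑ k, ∑ l, (star (c k i) * c l i) • (star (b k) * b l)
            = ∑ k, ∑ l, ∑ i : F, (star (c k i) * c l i) • (star (b k) * b l) := by
          rw [sum_comm]
          refine sum_congr rfl fun k _ => ?_
          rw [sum_comm]
        rw [e4]
        refine sum_congr rfl fun k _ => sum_congr rfl fun l _ => ?_
        rw [← sum_smul]
        congr 1
        rw [hyF k, hyF l, he.inner_sum, ← sum_coe_sort F]
        rfl
      rw [Set.mem_setOf_eq, e1, e2]
      exact h1
    have := hcl.closure_subset_iff.2 hsub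
    rw [hdense.closure_eq] at this
    exact this (Set.mem_univ y)
  have h2 := key v
  have e3 : ∑ k, ∑ l, (inner ℂ (v k) (v l) : ℂ) • (star (b k) * b l) = ∑ k, s (v k) * star (s (v k)) := by
    refine sum_congr rfl fun k _ => ?_
    rw [sum_eq_single k]
    · rw [orthonormal_iff_ite.1 hv k k, if_pos rfl, one_smul, hb]
      simp only [star_star]
    · intro l _ hl
      rw [orthonormal_iff_ite.1 hv k l, if_neg (Ne.symm hl), zero_smul]
    · intro hk; exact absurd (mem_univ k) hk
  rw [e3] at h2
  set P := ‖∑ k, s (v k) * star (s (v k))‖ with hP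
  have hP0 : 0 ≤ P := norm_nonneg _
  show P ≤ (1 - q)⁻¹
  rcases hP0.eq_or_lt with h0 | h0
  · rw [← h0]; exact hK0.le
  · rw [sq] at h2
    exact le_of_mul_le_mul_right h2 h0

end Pool.Agent.N237.QF
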