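import Mathlib

/-! Row-bounded maps of Hilbert spaces into C*-algebras: words in the generators are bounded by the
Hilbert-Schmidt norm (helper237). -/

set_option autoImplicit false

open Finset
open scoped ComplexOrder

namespace Pool.Agent.N237.QF

attribute [local instance] CStarAlgebra.spectralOrder CStarAlgebra.spectralOrderedRing

section cs

variable {U : Type} [CStarAlgebra U]

theorem row_nonneg {ι : Type} [Fintype ι] (x : ι → U) : 0 ≤ ∑ k, x k * star (x k) :=
  Finset.sum_nonneg fun k _ => mul_star_self_nonneg (x k)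

theorem col_nonneg {ι : Type} [Fintype ι] (x : ι → U) : 0 ≤ ∑ k, star (x k) * x k :=
  Finset.sum_nonneg fun k _ => star_mul_self_nonneg (x k)

/-- Cauchy-Schwarz for rows and columns. -/
theorem cs_le {ι : Type} [Fintype ι] (x y : ι → U) (K : ℝ) (hK : 0 < K)
    (h : ‖∑ k, x k * star (x k)‖ ≤ K) :
    star (∑ k, x k * y k) * (∑ k, x k * y k) ≤ K • ∑ k, star (y k) * y k := by
  set P := ∑ k, x k * star (x k) with hP
  set T := ∑ k, x k * y k with hT
  have hPs : IsSelfAdjoint P := IsSelfAdjoint.of_nonneg (row_nonneg x)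
  have hP1 : P ≤ K • (1 : U) := by
    refine hPs.le_algebraMap_norm_self.trans ?_
    rw [Algebra.algebraMap_eq_smul_one]
    exact smul_le_smul_of_nonneg_right h zero_le_one
  have hTs : star T = ∑ k, star (y k) * star (x k) := by
    rw [hT, star_sum]
    exact sum_congr rfl fun k _ => by rw [star_mul]
  have h1 : 0 ≤ ∑ k, star (y k - K⁻¹ • (star (x k) * T)) * (y k - K⁻¹ • (star (x k) * T)) :=
    Finset.sum_nonneg fun k _ => star_mul_self_nonneg _
  have h2 : ∑ k, star (y k - K⁻¹ • (star (x k) * T)) * (y k - K⁻¹ • (star (x k) * T))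
      = (∑ k, star (y k) * y k) - (2 * K⁻¹) • (star T * T) + (K⁻¹ * K⁻¹) • (star T * P * T) := by
    have e : ∀ k, star (y k - K⁻¹ • (star (x k) * T)) * (y k - K⁻¹ • (star (x k) * T))
        = star (y k) * y k - K⁻¹ • (star (y k) * star (x k) * T) - K⁻¹ • (star T * (x k * y k))
          + (K⁻¹ * K⁻¹) • (star T * (x k * star (x k)) * T) := by
      intro k
      rw [star_sub, star_smul, star_mul, star_star, star_trivial K⁻¹, sub_mul, mul_sub, mul_sub,
        smul_mul_assoc, smul_mul_assoc, mul_smul_comm, mul_smul_comm, smul_smul]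
      simp only [mul_assoc]
      abel
    simp only [e]
    rw [sum_add_distrib, sum_sub_distrib, sum_sub_distrib, ← smul_sum, ← smul_sum, ← smul_sum,
      ← sum_mul, ← hTs, ← mul_sum, ← hT]
    have e3 : ∑ k, star T * (x k * star (x k)) * T = star T * P * T := by
      rw [← sum_mul, ← mul_sum]
    rw [e3, two_mul, add_smul]
    abel
  have h3 : star T * P * T ≤ K • (star T * T) := by
    have := star_left_conjugate_le_conjugate hP1 T
    rwa [mul_smul_comm, mul_one, smul_mul_assoc] at this
  have h4 : (K⁻¹ * K⁻¹) • (star T * P * T) ≤ K⁻¹ • (star T * T) := by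
    have := smul_le_smul_of_nonneg_left h3 (mul_nonneg (inv_nonneg.2 hK.le) (inv_nonneg.2 hK.le))
    rwa [smul_smul (K⁻¹ * K⁻¹) K, mul_assoc K⁻¹ K⁻¹ K, inv_mul_cancel₀ hK.ne', mul_one] at this
  have h5 : K⁻¹ • (star T * T) ≤ ∑ k, star (y k) * y k := by
    rw [h2] at h1
    have h6 := h1.trans (add_le_add_right h4 ((∑ k, star (y k) * y k) - (2 * K⁻¹) • (star T * T)))
    have h7 : (∑ k, star (y k) * y k) - (2 * K⁻¹) • (star T * T) + K⁻¹ • (star T * T)
        = (∑ k, star (y k) * y k) - K⁻¹ • (star T * T) := by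
      rw [two_mul, add_smul]; abel
    rw [h7] at h6
    exact sub_nonneg.1 h6
  have := smul_le_smul_of_nonneg_left h5 hK.le
  rwa [smul_smul, mul_inv_cancel₀ hK.ne', one_smul] at this

/-- the norm version -/
theorem cs_norm {ι : Type} [Fintype ι] (x y : ι → U) (K : ℝ) (hK : 0 < K)
    (h : ‖∑ k, x k * star (x k)‖ ≤ K) :
    ‖∑ k, x k * y k‖ ^ 2 ≤ K * ‖∑ k, star (y k) * y k‖ := by
  have h1 := cs_le x y K hK h
  have h2 := CStarAlgebra.norm_le_norm_of_nonneg_of_le (star_mul_self_nonneg _) h1
  rw [CStarRing.norm_star_mul_self, norm_smul, Real.norm_of_nonneg hK.le] at h2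
  rw [sq]
  exact h2

end cs

variable {U H : Type} [CStarAlgebra U] [NormedAddCommGroup H] [InnerProductSpace ℂ H]

/-- `s` is row-bounded: `‖∑ s(e_i) s(e_i)*‖ ≤ K` for all finite orthonormal families. -/
def RowBounded (s : H →ₗ[ℂ] U) (K : ℝ) : Prop :=
  ∀ (d : ℕ) (e : Fin d → H), Orthonormal ℂ e → ‖∑ i, s (e i) * star (s (e i))‖ ≤ K

/-- an orthonormal basis of the span of a finite family -/
theorem exists_basis {N : ℕ} (y : Fin N → H) : ∃ (d : ℕ) (e : Fin d → H), Orthonormal ℂ e ∧
    ∀ i, y i = ∑ k, (inner ℂ (e k) (y i) : ℂ) • e k := by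
  let F : Submodule ℂ H := Submodule.span ℂ (Set.range y)
  have : FiniteDimensional ℂ F := FiniteDimensional.span_of_finite ℂ (Set.finite_range y)
  let b := stdOrthonormalBasis ℂ F
  refine ⟨Module.finrank ℂ F, fun k => (b k : H), ?_, fun i => ?_⟩
  · have := b.orthonormal
    exact this.comp_linearIsometry F.subtypeₗᵢ
  · have hy : y i ∈ F := Submodule.subset_span ⟨i, rfl⟩
    have h1 := b.sum_repr' ⟨y i, hy⟩
    have h2 := congrArg (F.subtype) h1
    rw [map_sum] at h2
    simp only [map_smul, Submodule.subtype_apply, Submodule.coe_inner] at h2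
    exact h2.symm

theorem parseval {N d : ℕ} {y : Fin N → H} {e : Fin d → H}
    (hy : ∀ i, y i = ∑ k, (inner ℂ (e k) (y i) : ℂ) • e k) (i j : Fin N) :
    (inner ℂ (y i) (y j) : ℂ) = ∑ k, star (inner ℂ (e k) (y i) : ℂ) * inner ℂ (e k) (y j) := by
  conv_lhs => rw [hy i]
  rw [sum_inner]
  refine sum_congr rfl fun k _ => ?_
  rw [inner_smul_left]
  rfl

/-- **Words are bounded by their Gram matrix.** -/
theorem row_list (s : H →ₗ[ℂ] U) {K : ℝ} (hK : 0 < K) (hrow : RowBounded s K) (l : List H) :
    ∀ (N : ℕ) (f : Fin N → H → H) (b : Fin N → U),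
    star (∑ i, ((l.map (f i)).map s).prod * b i) * (∑ i, ((l.map (f i)).map s).prod * b i)
      ≤ K ^ l.length • ∑ i, ∑ j, (l.map fun ξ => (inner ℂ (f i ξ) (f j ξ) : ℂ)).prod •
        (star (b i) * b j) := by
  induction l with
  | nil =>
    intro N f b
    simp only [List.map_nil, List.prod_nil, one_mul, List.length_nil, pow_zero, one_smul]
    rw [star_sum, sum_mul]
    exact le_of_eq (sum_congr rfl fun i _ => mul_sum _ _ _)
  | cons ξ l ih =>
    intro N f b
    obtain ⟨d, e, he, hy⟩ := exists_basis (fun i => f i ξ)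
    set w : Fin N → U := fun i => ((l.map (f i)).map s).prod with hw
    set β : Fin d → U := fun k => ∑ i, w i * ((inner ℂ (e k) (f i ξ) : ℂ) • b i) with hβ
    have h1 : ∑ i, (((ξ :: l).map (f i)).map s).prod * b i = ∑ k, s (e k) * β k := by
      simp only [List.map_cons, List.prod_cons, hβ, mul_sum]
      rw [sum_comm]
      refine sum_congr rfl fun i _ => ?_
      conv_lhs => rw [hy i]
      rw [map_sum, sum_mul, sum_mul]
      refine sum_congr rfl fun k _ => ?_
      rw [map_smul, smul_mul_assoc, smul_mul_assoc, mul_smul_comm, mul_smul_comm, mul_assoc]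
    rw [h1]
    refine (cs_le _ _ K hK (hrow d e he)).trans ?_
    have h2 : ∑ k, star (β k) * β k ≤ ∑ k, K ^ l.length • ∑ i, ∑ j,
        (l.map fun ξ => (inner ℂ (f i ξ) (f j ξ) : ℂ)).prod •
        (star ((inner ℂ (e k) (f i ξ) : ℂ) • b i) * ((inner ℂ (e k) (f j ξ) : ℂ) • b j)) :=
      sum_le_sum fun k _ => ih N f _
    refine (smul_le_smul_of_nonneg_left h2 hK.le).trans (le_of_eq ?_)
    rw [← smul_sum, smul_smul, List.length_cons, pow_succ']
    congr 1
    rw [sum_comm]
    refine sum_congr rfl fun i _ => ?_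
    rw [sum_comm]
    refine sum_congr rfl fun j _ => ?_
    rw [← smul_sum]
    simp only [List.map_cons, List.prod_cons]
    rw [parseval hy i j, sum_mul, sum_smul, smul_sum]
    refine sum_congr rfl fun k _ => ?_
    rw [star_smul, smul_mul_smul_comm, smul_smul]
    congr 1
    ring

/-- the Gram matrix of words is positive -/
theorem gram_factor (l : List H) (N : ℕ) (f : Fin N → H → H) :
    ∃ (κ : Type) (_ : Fintype κ) (R : κ → Fin N → ℂ), ∀ i j,
      (l.map fun ξ => (inner ℂ (f i ξ) (f j ξ) : ℂ)).prod = ∑ k, star (R k i) * R k j := by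
  induction l with
  | nil => exact ⟨Unit, inferInstance, fun _ _ => 1, fun i j => by simp⟩
  | cons ξ l ih =>
    obtain ⟨κ, _, R, hR⟩ := ih
    obtain ⟨d, e, he, hy⟩ := exists_basis (fun i => f i ξ)
    refine ⟨κ × Fin d, inferInstance, fun k i => R k.1 i * (inner ℂ (e k.2) (f i ξ) : ℂ), fun i j => ?_⟩
    simp only [List.map_cons, List.prod_cons]
    rw [hR, parseval hy i j, mul_comm, Fintype.sum_prod_type, sum_mul_sum]
    refine sum_congr rfl fun k _ => sum_congr rfl fun m _ => ?_
    rw [star_mul']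
    ring

/-- **The Hilbert-Schmidt bound for normally ordered words.** -/
theorem hs_fin (s : H →ₗ[ℂ] U) {K : ℝ} (hK : 0 < K) (hrow : RowBounded s K) (p q : List H)
    (N : ℕ) (f : Fin N → H → H) (c : Fin N → ℂ) :
    ∃ S : ℝ, 0 ≤ S ∧
    ‖∑ i, c i • (((p.map (f i)).map s).prod * star (((q.map (f i)).map s).prod))‖ ^ 2
      ≤ K ^ (p.length + q.length) * S ∧
    (∑ i, ∑ j, c i * star (c j) * ((q.map fun ξ => (inner ℂ (f i ξ) (f j ξ) : ℂ)).prod *
      (p.map fun ξ => (inner ℂ (f j ξ) (f i ξ) : ℂ)).prod)) = (S : ℂ) := by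
  obtain ⟨κ, _, R, hR⟩ := gram_factor p N f
  obtain ⟨κ', _, R', hR'⟩ := gram_factor q N f
  set A : Fin N → U := fun i => ((p.map (f i)).map s).prod with hA
  set B : Fin N → U := fun i => ((q.map (f i)).map s).prod with hB
  -- the coefficients
  set co : κ → Fin N → ℂ := fun k i => star (R k i) * star (c i) with hco
  set z : κ → κ' → ℂ := fun k k' => ∑ i, R' k' i * co k i with hz
  refine ⟨∑ k, ∑ k', ‖z k k'‖ ^ 2, Finset.sum_nonneg fun k _ => Finset.sum_nonneg fun k' _ =>
    sq_nonneg _, ?_, ?_⟩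
  · have h1 : ∑ i, c i • (A i * star (B i)) = ∑ i, A i * (c i • star (B i)) :=
      sum_congr rfl fun i _ => by rw [mul_smul_comm]
    have h2 := row_list s hK hrow p N f (fun i => c i • star (B i))
    rw [← h1] at h2
    have h3 : ∑ i, ∑ j, (p.map fun ξ => (inner ℂ (f i ξ) (f j ξ) : ℂ)).prod •
        (star (c i • star (B i)) * (c j • star (B j)))
        = ∑ k, (∑ i, co k i • B i) * star (∑ i, co k i • B i) := by
      have e : ∀ k, (∑ i, co k i • B i) * star (∑ i, co k i • B i)
          = ∑ i, ∑ j, (star (R k i) * R k j * (star (c i) * c j)) • (B i * star (B j)) := by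
        intro k
        rw [star_sum, sum_mul]
        refine sum_congr rfl fun i _ => ?_
        rw [mul_sum]
        refine sum_congr rfl fun j _ => ?_
        rw [star_smul, smul_mul_smul_comm]
        congr 1
        simp only [hco, star_mul', star_star]
        ring
      simp only [e]
      have e3 : ∑ k, ∑ i, ∑ j, (star (R k i) * R k j * (star (c i) * c j)) • (B i * star (B j))
          = ∑ i, ∑ j, ∑ k, (star (R k i) * R k j * (star (c i) * c j)) • (B i * star (B j)) := by
        rw [sum_comm]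
        refine sum_congr rfl fun i _ => ?_
        rw [sum_comm]
      rw [e3]
      refine sum_congr rfl fun i _ => sum_congr rfl fun j _ => ?_
      rw [hR i j, ← sum_smul, star_smul, star_star, smul_mul_smul_comm, smul_smul, sum_mul]
    rw [h3] at h2
    have h4 := CStarAlgebra.norm_le_norm_of_nonneg_of_le (star_mul_self_nonneg _) h2
    rw [CStarRing.norm_star_mul_self, norm_smul, Real.norm_of_nonneg (pow_nonneg hK.le _), ← sq] at h4
    refine h4.trans ?_
    rw [pow_add, mul_assoc]
    refine mul_le_mul_of_nonneg_left ?_ (pow_nonneg hK.le _)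
    rw [Finset.mul_sum (s := (univ : Finset κ))]
    refine (norm_sum_le _ _).trans (sum_le_sum fun k _ => ?_)
    rw [CStarRing.norm_self_mul_star]
    have h5 := row_list s hK hrow q N f (fun i => co k i • (1 : U))
    have h6 : ∑ i, ((q.map (f i)).map s).prod * (co k i • (1 : U)) = ∑ i, co k i • B i :=
      sum_congr rfl fun i _ => by rw [mul_smul_comm, mul_one]
    rw [h6] at h5
    have h7 : ∑ i, ∑ j, (q.map fun ξ => (inner ℂ (f i ξ) (f j ξ) : ℂ)).prod •
        (star (co k i • (1 : U)) * (co k j • (1 : U))) = (∑ k', ‖z k k'‖ ^ 2) • (1 : U) := by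
      have e : ∀ k', ((‖z k k'‖ ^ 2 : ℝ) : ℂ) = ∑ i, ∑ j, star (R' k' i) * R' k' j *
          (star (co k i) * co k j) := by
        intro k'
        have : ((‖z k k'‖ ^ 2 : ℝ) : ℂ) = star (z k k') * z k k' := by
          rw [Complex.star_def, ← Complex.normSq_eq_conj_mul_self, Complex.normSq_eq_norm_sq]
        rw [this, hz]
        simp only []
        rw [star_sum, sum_mul]
        refine sum_congr rfl fun i _ => ?_
        rw [mul_sum]
        refine sum_congr rfl fun j _ => ?_
        rw [star_mul']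
        ring
      have e2 : (∑ k', ‖z k k'‖ ^ 2) • (1 : U) = (((∑ k', ‖z k k'‖ ^ 2 : ℝ) : ℂ)) • (1 : U) :=
        (Complex.coe_smul _ _).symm
      rw [e2, Complex.ofReal_sum]
      simp only [e]
      have e3 : ∑ k', ∑ i, ∑ j, star (R' k' i) * R' k' j * (star (co k i) * co k j)
          = ∑ i, ∑ j, ∑ k', star (R' k' i) * R' k' j * (star (co k i) * co k j) := by
        rw [sum_comm]
        refine sum_congr rfl fun i _ => ?_
        rw [sum_comm]
      rw [e3, sum_smul]
      refine sum_congr rfl fun i _ => ?_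
      rw [sum_smul]
      refine sum_congr rfl fun j _ => ?_
      rw [hR' i j, star_smul, star_one, smul_mul_smul_comm, mul_one, smul_smul, sum_mul]
    rw [h7, smul_smul] at h5
    have h8 := CStarAlgebra.norm_le_norm_of_nonneg_of_le (star_mul_self_nonneg _) h5
    rw [CStarRing.norm_star_mul_self] at h8
    refine h8.trans ?_
    have h9 : 0 ≤ K ^ q.length * ∑ k', ‖z k k'‖ ^ 2 :=
      mul_nonneg (pow_nonneg hK.le _) (Finset.sum_nonneg fun _ _ => sq_nonneg _)
    rw [norm_smul, Real.norm_of_nonneg h9]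
    have h10 : ‖(1 : U)‖ ≤ 1 := by
      rcases subsingleton_or_nontrivial U with hU | hU
      · rw [Subsingleton.elim (1 : U) 0, norm_zero]; exact zero_le_one
      · exact norm_one.le
    nlinarith
  · have e : ∀ k k', ((‖z k k'‖ ^ 2 : ℝ) : ℂ) = ∑ i, ∑ j, star (R' k' i) * R' k' j *
          (star (co k i) * co k j) := by
      intro k k'
      have : ((‖z k k'‖ ^ 2 : ℝ) : ℂ) = star (z k k') * z k k' := by
        rw [Complex.star_def, ← Complex.normSq_eq_conj_mul_self, Complex.normSq_eq_norm_sq]
      rw [this, hz]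
      simp only []
      rw [star_sum, sum_mul]
      refine sum_congr rfl fun i _ => ?_
      rw [mul_sum]
      refine sum_congr rfl fun j _ => ?_
      rw [star_mul']
      ring
    rw [Complex.ofReal_sum]
    simp only [Complex.ofReal_sum, e]
    have hcomm : ∑ k : κ, ∑ k' : κ', ∑ i, ∑ j, star (R' k' i) * R' k' j * (star (co k i) * co k j)
        = ∑ i, ∑ j, ∑ k : κ, ∑ k' : κ', star (R' k' i) * R' k' j * (star (co k i) * co k j) := by
      calc _ = ∑ k : κ, ∑ i, ∑ j, ∑ k' : κ', star (R' k' i) * R' k' j * (star (co k i) * co k j) := by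
            refine sum_congr rfl fun k _ => ?_
            rw [sum_comm]
            refine sum_congr rfl fun i _ => ?_
            rw [sum_comm]
        _ = _ := by
            rw [sum_comm]
            refine sum_congr rfl fun i _ => ?_
            rw [sum_comm]
    rw [hcomm]
    refine sum_congr rfl fun i _ => sum_congr rfl fun j _ => ?_
    rw [hR' i j, hR j i, sum_mul_sum, mul_sum, sum_comm]
    refine sum_congr rfl fun k _ => ?_
    rw [mul_sum]
    refine sum_congr rfl fun k' _ => ?_
    simp only [hco, star_mul', star_star]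
    ring

end Pool.Agent.N237.QF
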